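import Mathlib
import Pool.Agent.R772.BridgeH

/-!
# Symplectic forms in a class, homotopic to a given nondegenerate form: nonnegative top power

`X` is a closed manifold of dimension `d = 2 (m + 1)` oriented by a volume form, `σ` is a closed
two-form with `σ ^ (m + 1)` nonnegative, and `Deg m σ` is the set where `σ ^ (m + 1)` vanishes. If
the exceptional sets are small then there is a one-form `α` such that the forms `σ + t (ζ + dα)`
are positive symplectic forms for all small positive `t`; and for every two-form `τ` such that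
`τ ∧ σ ^ m` is positive over `Deg m σ` and the segment from `τ` to `σ` is nondegenerate (except
for its endpoint `σ` over `Deg m σ`), the segments from `τ` to these symplectic forms consist of
nondegenerate forms. No almost complex structure is used.
-/

set_option autoImplicit false

open Set MeasureTheory
open scoped Manifold ContDiff

namespace Pool.Agent.Results.MP_bf98aa_gt.TopPowerHomotopy

open Pool.Agent.Y501.SYP
open Pool.Agent.R772.SYK
open Pool.Agent.R772.SYG

theorem result (m d : ℕ) (hd : d = 2 * (m + 1)) (X : Type) [TopologicalSpace X]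
    [ChartedSpace (ES d) X] [IsManifold 𝓘(ℝ, ES d) ∞ X] [CompactSpace X] [T2Space X]
    (vol : TopForm (ES d) X m) (hvol : IsVolume vol)
    (σ ζ : Form (ES d) X 2) (hσ : IsClosed2 σ) (hζ : IsClosed2 ζ) (hnn : TopNonneg vol σ)
    (p : ℕ) (Y : Type) [TopologicalSpace Y] [ChartedSpace (ES p) Y]
    [IsManifold 𝓘(ℝ, ES p) ∞ Y] [T2Space Y] (f : X → Y) (hf : KernelMap (W := ES p) m σ f)
    (hcomp : ∀ z ∈ Deg m σ, Good vol σ ζ (Comp m σ f z)) :
    ∃ (α : Form (ES d) X 1) (ρ : Form (ES d) X 2), IsSmooth α ∧ IsSmooth ρ ∧ IsD α ρ ∧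
      (∃ t₀ : ℝ, 0 < t₀ ∧ ∀ t : ℝ, 0 < t → t ≤ t₀ →
        IsPosSymplectic vol (comb σ t (addF ζ ρ))) ∧
      ∀ τ : Form (ES d) X 2, IsSmooth τ →
        (∀ x ∈ Deg m σ, ∀ e : Fam (ES d) m x, 0 < vol x e → 0 < mixed m σ x (τ x) e) →
        (∀ x, ∀ s : ℝ, 0 ≤ s → s ≤ 1 → (x ∉ Deg m σ ∨ s < 1) → NondegAt (seg τ σ s) x) →
        ∃ t₀ : ℝ, 0 < t₀ ∧ ∀ t : ℝ, 0 < t → t ≤ t₀ → ∀ s : ℝ, 0 ≤ s → s ≤ 1 →
          ∀ x, NondegAt (seg τ (comb σ t (addF ζ ρ)) s) x :=
  corankHomotopy hd vol hvol σ ζ hσ hζ hnn f hf hcomp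

end Pool.Agent.Results.MP_bf98aa_gt.TopPowerHomotopy
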