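import Mathlib
import Pool.Agent.R772.BridgeU

/-!
# Closed two-forms with nonnegative top power determine symplectic forms up to isotopy

`X` is a closed manifold of dimension `2 (m + 1)` oriented by a volume form, and `σ` is a closed
two-form with `σ ^ (m + 1)` nonnegative; `Deg m σ` is the set where `σ ^ (m + 1)` vanishes. Call a
closed two-form `η` admissible if `η ∧ σ ^ m` is positive over `Deg m σ`.

1. A class (of a closed form `ζ`) contains an admissible form if and only if for every test set `C`
   it contains a form `θ` such that `θ ∧ σ ^ m` is nonnegative over `C` and positive at one point of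
   `C`. If `Deg m σ` is covered by countably many closed sets, the intersections with which are
   small at all their points, every class contains an admissible form.
2. If `η` is admissible then `σ + t η` is a positive symplectic form for all small `t > 0`.
3. For small `t > 0` the symplectic form `σ + t η` is homotopic to a given form `τ` through
   nondegenerate two-forms if and only if `τ` is homotopic to a two-form `τ'` such that
   `τ' ∧ σ ^ m` is positive over `Deg m σ` and the segment from `τ'` to `σ` is nondegenerate (except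
   for its endpoint `σ` over `Deg m σ`). This condition does not depend on `η`.
4. If `η` and `η'` are admissible, the segments from `σ + t η` to `σ + t' η'` consist of positive
   symplectic forms for all small `t, t' > 0`.

In the notation of Q1, let `a = [σ]` and let the zero class contain an admissible form `η`, for
instance let `Deg m σ` be countably small. Then the class `a` contains the symplectic forms
`σ + t η`; they are homotopic to the given form `τ` if and only if the condition in 3 holds; and
by 4 and Moser's theorem they are unique up to isotopy.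
-/

set_option autoImplicit false

open Set
open scoped Manifold ContDiff

namespace Pool.Agent.Results.MP_bf98aa_gt.UniqueResolution

open Pool.Agent.Y501.SYP
open Pool.Agent.R772.SYK
open Pool.Agent.R772.SYG
open Pool.Agent.R772.SYF
open Pool.Agent.R772.SYD
open Pool.Agent.R772.SYM
open Pool.Agent.R772.SYU

theorem result (m d : ℕ) (hd : d = 2 * (m + 1)) (X : Type) [TopologicalSpace X]
    [ChartedSpace (ES d) X] [IsManifold 𝓘(ℝ, ES d) ∞ X] [CompactSpace X] [T2Space X]
    (vol : TopForm (ES d) X m) (hvol : IsVolume vol)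
    (σ : Form (ES d) X 2) (hσ : IsClosed2 σ) (hnn : TopNonneg vol σ) :
    (∀ ζ : Form (ES d) X 2, IsClosed2 ζ →
      ((∃ (α : Form (ES d) X 1) (ρ : Form (ES d) X 2), ExactPair α ρ ∧
          PosOnDeg vol σ (addF ζ ρ)) ↔
        ∀ C : Set X, TestSet vol σ C → ∃ (α : Form (ES d) X 1) (ρ : Form (ES d) X 2),
          ExactPair α ρ ∧ SemiPos vol σ (addF ζ ρ) C)) ∧
    (∀ F : ℕ → Set X, CountablySmall vol σ F → ∀ ζ : Form (ES d) X 2, IsClosed2 ζ →
      ∃ (α : Form (ES d) X 1) (ρ : Form (ES d) X 2), ExactPair α ρ ∧
        PosOnDeg vol σ (addF ζ ρ)) ∧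
    ∀ η : Form (ES d) X 2, IsClosed2 η → PosOnDeg vol σ η →
      (∃ t₀ : ℝ, 0 < t₀ ∧ ∀ t : ℝ, 0 < t → t ≤ t₀ → IsPosSymplectic vol (comb σ t η)) ∧
      (∀ τ : Form (ES d) X 2,
        (∃ t₀ : ℝ, 0 < t₀ ∧ ∀ t : ℝ, 0 < t → t ≤ t₀ → Homotopic τ (comb σ t η)) ↔
          ∃ τ' : Form (ES d) X 2, Homotopic τ τ' ∧ Adjacent vol σ τ') ∧
      ∀ η' : Form (ES d) X 2, IsClosed2 η' → PosOnDeg vol σ η' →
        ∃ t₀ : ℝ, 0 < t₀ ∧ ∀ t t' : ℝ, 0 < t → t ≤ t₀ → 0 < t' → t' ≤ t₀ →
          ∀ s : ℝ, 0 ≤ s → s ≤ 1 →
            IsPosSymplectic vol (seg (comb σ t η) (comb σ t' η') s) := by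
  refine ⟨fun ζ hζ => ?_, fun F hF ζ hζ => ?_, fun η hη hp => ⟨?_, fun τ => ?_,
    fun η' hη' hp' => ?_⟩⟩
  · rw [← posOnDeg_sympl hd hvol hσ hζ hnn]
    exact tests hd vol hvol σ hσ hnn ζ hζ
  · rw [← posOnDeg_sympl hd hvol hσ hζ hnn]
    exact countable hd vol hvol σ hσ hnn F hF ζ hζ
  · exact comb_one hd hvol hσ hnn hη hp
  · exact homotopy_class hd hvol hσ hnn hη hp
  · exact unique hd hvol hσ hnn hη hη' hp hp'

end Pool.Agent.Results.MP_bf98aa_gt.UniqueResolution
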